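import Pool.Agent.KLI.Records

/-!
# A criterion for the infinitude of the records and an exact formula for the infimum
-/

namespace Pool.Agent.Results.MP_06bda5_nt.Criterion

open Pool.Agent.KLI

/-- Exact formulas for `inf h` on `A` and on its odd members, and criteria for `T` and `To` to be
infinite, in terms of `pen n = h n * exp (max 0 (-KL n / σ n))`. -/
theorem result :
    (sInf (h '' A) = sInf (pen '' {n | 1 ≤ n}) ∧
      (T.Infinite ↔ ∀ n ∈ A, ∃ m : ℕ, 1 ≤ m ∧ m ∉ A ∧ pen m < h n)) ∧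
    (sInf (h '' {n | n ∈ A ∧ Odd n}) = sInf (pen '' {n | Odd n}) ∧
      (To.Infinite ↔ ∀ n ∈ A, Odd n → ∃ m : ℕ, Odd m ∧ m ∉ A ∧ pen m < h n)) := by
  have hwA : 567292355617479792138113438766321162917863712623771519410370688733310 ∈ A :=
    mem_A_iff.mpr ⟨even_witness.1, even_witness.2.1⟩
  have hoA : 42978338396338115486405177111231857259726268272243174141535211608661758718078218000408945 ∈ A :=
    mem_A_iff.mpr ⟨odd_witness.1, odd_witness.2.2.1⟩
  have hwo := odd_witness.2.1
  refine ⟨⟨?_, ?_⟩, ⟨?_, ?_⟩⟩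
  · have := sInf_eq adm_true ⟨_, hwA, trivial⟩
    simpa using this
  · rw [T_eq, infinite_iff adm_true ⟨_, hwA, trivial⟩]
    simp
  · have := sInf_eq adm_odd ⟨_, hoA, hwo⟩
    rw [this]
    congr 2
    ext n
    constructor
    · rintro ⟨-, h⟩
      exact h
    · intro h
      exact ⟨h.pos, h⟩
  · rw [To_eq, infinite_iff adm_odd ⟨_, hoA, hwo⟩]
    constructor
    · intro H n hn ho
      obtain ⟨m, -, h2, h3, h4⟩ := H n hn ho
      exact ⟨m, h2, h3, h4⟩
    · intro H n hn ho
      obtain ⟨m, h2, h3, h4⟩ := H n hn ho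
      exact ⟨m, h2.pos, h2, h3, h4⟩

end Pool.Agent.Results.MP_06bda5_nt.Criterion
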