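import Pool.Agent.KLI.Records

/-!
# The sharp lower bound of `h` on `A` and the near-minimisers

The definitions `S`, `h`, `KL`, `A`, `T` are in `Pool/Agent/KLI/Problem.lean`.
-/

namespace Pool.Agent.Results.MP_06bda5_nt.SharpInfimum

open Pool.Agent.KLI

/-- `h n > 1.88295578177717073767318041144311632306511` for every `n ∈ A`, and every `n ∈ A` with
`h n < 1.88295578177717073767318041144311632306512` is `2·5·23·401·171653·4592774273·m`, where `m`
is neither `1` nor a prime and all its prime factors are at least `382630830258992229`; the set `T`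
contains such an `n`, every member of `T` beyond an explicit number is such an `n`, and if `T` is
finite then its last member `n` is such an `n`, it minimises `h` on `A`, and
`KL n ≤ σ(n)/(2p^3)` for every prime `p ∣ n`. -/
theorem result :
    (∀ n ∈ A, (1.88295578177717073767318041144311632306511 : ℝ) < h n) ∧
    (∀ n ∈ A, h n < 1.88295578177717073767318041144311632306512 →
      ∃ m : ℕ, n = 2 * 5 * 23 * 401 * 171653 * 4592774273 * m ∧ m ≠ 1 ∧ ¬ m.Prime ∧
        (∀ p : ℕ, p.Prime → p ∣ m → 382630830258992229 ≤ p) ∧ 10 ^ 55 < n) ∧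
    (∃ n ∈ T, h n < 1.88295578177717073767318041144311632306512) ∧
    (∀ n ∈ T, 567292355617479792138113438766321162917863712623771519410370688733310 < n →
      h n < 1.88295578177717073767318041144311632306512) ∧
    (T.Finite → ∃ n ∈ T, (∀ m ∈ T, m ≤ n) ∧ (∀ m ∈ A, h n ≤ h m) ∧
      h n < 1.88295578177717073767318041144311632306512 ∧
      (∀ p : ℕ, p.Prime → p ∣ n → KL n ≤ S n / (2 * (p : ℝ) ^ 3)) ∧
      KL n < S n / 10 ^ 53) := by
  have hc : (1.88295578177717073767318041144311632306512 : ℝ) =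
      188295578177717073767318041144311632306512 / 10 ^ 41 := by norm_num
  have hc' : (1.88295578177717073767318041144311632306511 : ℝ) =
      188295578177717073767318041144311632306511 / 10 ^ 41 := by norm_num
  rw [hc, hc']
  have hst : ∀ n ∈ A, h n < (188295578177717073767318041144311632306512 / 10 ^ 41 : ℝ) →
      ∃ m : ℕ, n = 2 * 5 * 23 * 401 * 171653 * 4592774273 * m ∧ 382630830258992229 ^ 2 ≤ m ∧
        m ≠ 1 ∧ ¬ m.Prime ∧
        (∀ p : ℕ, p.Prime → p ∣ m → 382630830258992229 ≤ p) ∧
        (188295578177717073767318041144311632306511 / 10 ^ 41 : ℝ) < h n := by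
    intro n hn hh
    obtain ⟨hn0, hE⟩ := mem_A_iff.mp hn
    obtain ⟨m, h1, h2, h2a, h2b, h3, h4⟩ := even_struct hn0 hE hh
    exact ⟨m, h1, h2, h2a, h2b, h3, h4⟩
  have hwA : 567292355617479792138113438766321162917863712623771519410370688733310 ∈ A :=
    mem_A_iff.mpr ⟨even_witness.1, even_witness.2.1⟩
  have hwh : h 567292355617479792138113438766321162917863712623771519410370688733310 <
      (188295578177717073767318041144311632306512 / 10 ^ 41 : ℝ) := even_witness.2.2
  have hbig : ∀ n m : ℕ, n = 2 * 5 * 23 * 401 * 171653 * 4592774273 * m →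
      382630830258992229 ^ 2 ≤ m → 10 ^ 55 < n := by
    intro n m h1 h2
    have h3 : 2 * 5 * 23 * 401 * 171653 * 4592774273 * 382630830258992229 ^ 2 ≤
        2 * 5 * 23 * 401 * 171653 * 4592774273 * m := Nat.mul_le_mul_left _ h2
    have h4 : 10 ^ 55 < 2 * 5 * 23 * 401 * 171653 * 4592774273 * 382630830258992229 ^ 2 := by
      norm_num
    omega
  refine ⟨?_, ?_, ?_, ?_, ?_⟩
  · intro n hn
    by_contra hlt
    push Not at hlt
    obtain ⟨m, -, -, -, -, -, h4⟩ := hst n hn (lt_of_le_of_lt hlt (by norm_num))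
    linarith
  · intro n hn hh
    obtain ⟨m, h1, h2, h2a, h2b, h3, -⟩ := hst n hn hh
    exact ⟨m, h1, h2a, h2b, h3, hbig n m h1 h2⟩
  · obtain ⟨n, hn, hlt, -⟩ := exists_rec (C := fun _ => True) ⟨_, hwA, trivial, hwh⟩
    exact ⟨n, T_eq ▸ hn, hlt⟩
  · intro n hn hlt
    exact (hn.2 _ hwA hlt).trans hwh
  · intro hfin
    obtain ⟨n, hn, hmin⟩ := min_of_finite (C := fun _ => True) ⟨_, hwA, trivial⟩ (T_eq ▸ hfin)
    have hnT : n ∈ T := T_eq ▸ hn
    have hh : h n < (188295578177717073767318041144311632306512 / 10 ^ 41 : ℝ) :=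
      lt_of_le_of_lt (hmin _ hwA trivial) hwh
    obtain ⟨m, h1, h2, h2a, h2b, h3, -⟩ := hst n hn.1 hh
    have hnm : ∀ p : ℕ, p.Prime → p ∣ n → KL n ≤ S n / (2 * (p : ℝ) ^ 3) := fun p hp hpn =>
      near_miss adm_true hn.1 trivial (fun m hm _ => hmin m hm trivial) hp hpn
    refine ⟨n, hnT, ?_, fun m hm => hmin m hm trivial, hh, hnm, ?_⟩
    · intro k hk
      by_contra hlt
      push Not at hlt
      have h5 := hk.2 n hnT.1 hlt
      have h6 := hmin k hk.1 trivial
      linarith
    · have hpr := Nat.minFac_prime h2a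
      have hge := h3 _ hpr (Nat.minFac_dvd m)
      have hdvd : m.minFac ∣ n := h1 ▸ (Nat.minFac_dvd m).mul_left _
      refine lt_of_le_of_lt (hnm _ hpr hdvd) ?_
      have hS : 0 < S n := S_pos hn.1.1
      have hge' : (382630830258992229 : ℝ) ≤ (m.minFac : ℝ) := by exact_mod_cast hge
      have h7 : (382630830258992229 : ℝ) ^ 3 ≤ (m.minFac : ℝ) ^ 3 :=
        pow_le_pow_left₀ (by norm_num) hge' 3
      have h8 : (10 : ℝ) ^ 53 < 2 * (m.minFac : ℝ) ^ 3 := by
        have : (10 : ℝ) ^ 53 < 2 * 382630830258992229 ^ 3 := by norm_num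
        linarith
      exact div_lt_div_of_pos_left hS (by positivity) h8

end Pool.Agent.Results.MP_06bda5_nt.SharpInfimum
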