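import Pool.Agent.KLI.Records

/-!
# The sharp lower bound of `h` on the odd members of `A` and the odd near-minimisers

The definitions `S`, `h`, `KL`, `A`, `To` are in `Pool/Agent/KLI/Problem.lean`.
-/

namespace Pool.Agent.Results.MP_06bda5_nt.SharpInfimumOdd

open Pool.Agent.KLI

/-- `h n > 1.95746417894492885881916834768066886209421253240811` for every odd `n ∈ A`, and every
odd `n ∈ A` with `h n < 1.95746417894492885881916834768066886209421253240812` is
`3·5·7·17·97·1429·2716501·263181260437·m`, where `m` is neither `1` nor a prime and all its prime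
factors are at least `40392796109160158585868`; the set `To` contains such an `n`, every member of
`To` beyond an explicit number is such an `n`, and if `To` is finite then its last member `n` is
such an `n`, it minimises `h` on the odd members of `A`, and `KL n ≤ σ(n)/(2p^3)` for every prime
`p ∣ n`. -/
theorem result :
    (∀ n ∈ A, Odd n → (1.95746417894492885881916834768066886209421253240811 : ℝ) < h n) ∧
    (∀ n ∈ A, Odd n → h n < 1.95746417894492885881916834768066886209421253240812 →
      ∃ m : ℕ, n = 3 * 5 * 7 * 17 * 97 * 1429 * 2716501 * 263181260437 * m ∧ m ≠ 1 ∧ ¬ m.Prime ∧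
        (∀ p : ℕ, p.Prime → p ∣ m → 40392796109160158585868 ≤ p) ∧ 10 ^ 65 < n) ∧
    (∃ n ∈ To, h n < 1.95746417894492885881916834768066886209421253240812) ∧
    (∀ n ∈ To, 42978338396338115486405177111231857259726268272243174141535211608661758718078218000408945 < n →
      h n < 1.95746417894492885881916834768066886209421253240812) ∧
    (To.Finite → ∃ n ∈ To, (∀ m ∈ To, m ≤ n) ∧ (∀ m ∈ A, Odd m → h n ≤ h m) ∧
      h n < 1.95746417894492885881916834768066886209421253240812 ∧
      (∀ p : ℕ, p.Prime → p ∣ n → KL n ≤ S n / (2 * (p : ℝ) ^ 3)) ∧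
      KL n < S n / 10 ^ 68) := by
  have hc : (1.95746417894492885881916834768066886209421253240812 : ℝ) =
      195746417894492885881916834768066886209421253240812 / 10 ^ 50 := by norm_num
  have hc' : (1.95746417894492885881916834768066886209421253240811 : ℝ) =
      195746417894492885881916834768066886209421253240811 / 10 ^ 50 := by norm_num
  rw [hc, hc']
  have hst : ∀ n ∈ A, Odd n →
      h n < (195746417894492885881916834768066886209421253240812 / 10 ^ 50 : ℝ) →
      ∃ m : ℕ, n = 3 * 5 * 7 * 17 * 97 * 1429 * 2716501 * 263181260437 * m ∧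
        40392796109160158585868 ^ 2 ≤ m ∧ m ≠ 1 ∧ ¬ m.Prime ∧
        (∀ p : ℕ, p.Prime → p ∣ m → 40392796109160158585868 ≤ p) ∧
        (195746417894492885881916834768066886209421253240811 / 10 ^ 50 : ℝ) < h n := by
    intro n hn ho hh
    obtain ⟨hn0, hE⟩ := mem_A_iff.mp hn
    obtain ⟨m, h1, h2, h2a, h2b, h3, h4⟩ := odd_struct hn0 ho hE hh
    exact ⟨m, h1, h2, h2a, h2b, h3, h4⟩
  have hwA : 42978338396338115486405177111231857259726268272243174141535211608661758718078218000408945 ∈ A :=
    mem_A_iff.mpr ⟨odd_witness.1, odd_witness.2.2.1⟩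
  have hwo : Odd 42978338396338115486405177111231857259726268272243174141535211608661758718078218000408945 :=
    odd_witness.2.1
  have hwh : h 42978338396338115486405177111231857259726268272243174141535211608661758718078218000408945 <
      (195746417894492885881916834768066886209421253240812 / 10 ^ 50 : ℝ) := odd_witness.2.2.2
  have hbig : ∀ n m : ℕ, n = 3 * 5 * 7 * 17 * 97 * 1429 * 2716501 * 263181260437 * m →
      40392796109160158585868 ^ 2 ≤ m → 10 ^ 65 < n := by
    intro n m h1 h2
    have h3 : 3 * 5 * 7 * 17 * 97 * 1429 * 2716501 * 263181260437 * 40392796109160158585868 ^ 2 ≤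
        3 * 5 * 7 * 17 * 97 * 1429 * 2716501 * 263181260437 * m := Nat.mul_le_mul_left _ h2
    have h4 : 10 ^ 65 <
        3 * 5 * 7 * 17 * 97 * 1429 * 2716501 * 263181260437 * 40392796109160158585868 ^ 2 := by
      norm_num
    omega
  refine ⟨?_, ?_, ?_, ?_, ?_⟩
  · intro n hn ho
    by_contra hlt
    push Not at hlt
    obtain ⟨m, -, -, -, -, -, h4⟩ := hst n hn ho (lt_of_le_of_lt hlt (by norm_num))
    linarith
  · intro n hn ho hh
    obtain ⟨m, h1, h2, h2a, h2b, h3, -⟩ := hst n hn ho hh
    exact ⟨m, h1, h2a, h2b, h3, hbig n m h1 h2⟩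
  · obtain ⟨n, hn, hlt, -⟩ := exists_rec (C := fun n => Odd n) ⟨_, hwA, hwo, hwh⟩
    exact ⟨n, hn, hlt⟩
  · intro n hn hlt
    exact (hn.2.2 _ hwA hwo hlt).trans hwh
  · intro hfin
    obtain ⟨n, hn, hmin⟩ := min_of_finite (C := fun n => Odd n) ⟨_, hwA, hwo⟩ hfin
    have hnT : n ∈ To := hn
    have hh : h n < (195746417894492885881916834768066886209421253240812 / 10 ^ 50 : ℝ) :=
      lt_of_le_of_lt (hmin _ hwA hwo) hwh
    obtain ⟨m, h1, h2, h2a, h2b, h3, -⟩ := hst n hn.1 hn.2.1 hh
    have hnm : ∀ p : ℕ, p.Prime → p ∣ n → KL n ≤ S n / (2 * (p : ℝ) ^ 3) := fun p hp hpn =>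
      near_miss adm_odd hn.1 hn.2.1 hmin hp hpn
    refine ⟨n, hnT, ?_, hmin, hh, hnm, ?_⟩
    · intro k hk
      by_contra hlt
      push Not at hlt
      have h5 := hk.2.2 n hnT.1 hnT.2.1 hlt
      have h6 := hmin k hk.1 hk.2.1
      linarith
    · have hpr := Nat.minFac_prime h2a
      have hge := h3 _ hpr (Nat.minFac_dvd m)
      have hdvd : m.minFac ∣ n := h1 ▸ (Nat.minFac_dvd m).mul_left _
      refine lt_of_le_of_lt (hnm _ hpr hdvd) ?_
      have hS : 0 < S n := S_pos hn.1.1
      have hge' : (40392796109160158585868 : ℝ) ≤ (m.minFac : ℝ) := by exact_mod_cast hge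
      have h7 : (40392796109160158585868 : ℝ) ^ 3 ≤ (m.minFac : ℝ) ^ 3 :=
        pow_le_pow_left₀ (by norm_num) hge' 3
      have h8 : (10 : ℝ) ^ 68 < 2 * (m.minFac : ℝ) ^ 3 := by
        have : (10 : ℝ) ^ 68 < 2 * 40392796109160158585868 ^ 3 := by norm_num
        linarith
      exact div_lt_div_of_pos_left hS (by positivity) h8

end Pool.Agent.Results.MP_06bda5_nt.SharpInfimumOdd
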